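import Mathlib
import Pool.Agent.H510R2.Div

set_option autoImplicit false

/-!
# Pairs of triples with equal sums and equal sums of cubes
-/

namespace Pool.Agent.R219.CU

open Finset

/-- triples of integers between `1` and `L` -/
def tri (L : ℕ) : Finset (ℕ × ℕ × ℕ) := Icc 1 L ×ˢ (Icc 1 L ×ˢ Icc 1 L)

/-- the sum of a triple -/
def ssum (z : ℕ × ℕ × ℕ) : ℕ := z.1 + z.2.1 + z.2.2

/-- the sum of the cubes of the shifted triple -/
def cub (u : ℕ) (z : ℕ × ℕ × ℕ) : ℤ :=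
  ((u + z.1 : ℕ) : ℤ) ^ 3 + ((u + z.2.1 : ℕ) : ℤ) ^ 3 + ((u + z.2.2 : ℕ) : ℤ) ^ 3

/-- the product of the sums of two -/
def prd (u : ℕ) (z : ℕ × ℕ × ℕ) : ℕ :=
  ((u + z.1) + (u + z.2.1)) * ((u + z.2.1) + (u + z.2.2)) * ((u + z.2.2) + (u + z.1))

lemma prd_eq (u : ℕ) (z w : ℕ × ℕ × ℕ) (h1 : ssum z = ssum w) (h2 : cub u z = cub u w) :
    prd u z = prd u w := by
  obtain ⟨a, b, c⟩ := z
  obtain ⟨a', b', c'⟩ := w
  simp only [ssum, cub, prd] at *
  have h3 : ((a : ℤ) + b + c) = a' + b' + c' := by exact_mod_cast h1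
  have key : ∀ x y z : ℤ, 3 * ((x + y) * (y + z) * (z + x)) = (x + y + z) ^ 3 - (x ^ 3 + y ^ 3 + z ^ 3) := by
    intro x y z; ring
  have h4 := key ((u + a : ℕ) : ℤ) ((u + b : ℕ) : ℤ) ((u + c : ℕ) : ℤ)
  have h5 := key ((u + a' : ℕ) : ℤ) ((u + b' : ℕ) : ℤ) ((u + c' : ℕ) : ℤ)
  have h6 : ((u + a : ℕ) : ℤ) + ((u + b : ℕ) : ℤ) + ((u + c : ℕ) : ℤ) =
      ((u + a' : ℕ) : ℤ) + ((u + b' : ℕ) : ℤ) + ((u + c' : ℕ) : ℤ) := by
    push_cast; linarith
  rw [h6, h2, ← h5] at h4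
  have h7 : ((((u + a) + (u + b)) * ((u + b) + (u + c)) * ((u + c) + (u + a)) : ℕ) : ℤ) =
      ((((u + a') + (u + b')) * ((u + b') + (u + c')) * ((u + c') + (u + a')) : ℕ) : ℤ) := by
    push_cast at h4 ⊢
    linarith
  exact_mod_cast h7

lemma card_fib (u L : ℕ) (w : ℕ × ℕ × ℕ) (hw : w ∈ tri L) :
    ((tri L).filter fun z => ssum z = ssum w ∧ cub u z = cub u w).card ≤
      (prd u w).divisors.card ^ 2 := by
  classical
  have hw' := hw
  simp only [tri, mem_product, mem_Icc] at hw'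
  have hD : prd u w ≠ 0 := by
    unfold prd
    have h1 : 0 < (u + w.1) + (u + w.2.1) := by omega
    have h2 : 0 < (u + w.2.1) + (u + w.2.2) := by omega
    have h3 : 0 < (u + w.2.2) + (u + w.1) := by omega
    positivity
  rw [sq, ← Finset.card_product]
  refine Finset.card_le_card_of_injOn
    (fun z => ((u + z.2.1) + (u + z.2.2), (u + z.2.2) + (u + z.1))) ?_ ?_
  · intro z hz
    rw [Finset.mem_coe, Finset.mem_filter] at hz
    have h1 := prd_eq u z w hz.2.1 hz.2.2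
    rw [Finset.mem_coe, Finset.mem_product, Nat.mem_divisors, Nat.mem_divisors]
    refine ⟨⟨?_, hD⟩, ⟨?_, hD⟩⟩
    · rw [← h1]
      unfold prd
      exact Dvd.dvd.mul_right (Dvd.intro_left _ rfl) _
    · rw [← h1]
      unfold prd
      exact Dvd.intro_left _ rfl
  · intro z hz z' hz' h
    rw [Finset.mem_coe, Finset.mem_filter] at hz hz'
    obtain ⟨a, b, c⟩ := z
    obtain ⟨a', b', c'⟩ := z'
    simp only [Prod.mk.injEq] at h
    have h1 := hz.2.1
    have h2 := hz'.2.1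
    simp only [ssum] at h1 h2
    ext <;> simp only <;> omega

/-- pairs with equal sums and equal sums of cubes -/
def pairs (u L : ℕ) : Finset ((ℕ × ℕ × ℕ) × (ℕ × ℕ × ℕ)) :=
  (tri L ×ˢ tri L).filter fun p => ssum p.1 = ssum p.2 ∧ cub u p.1 = cub u p.2

theorem card_pairs {ε : ℝ} (hε : 0 < ε) : ∃ C : ℝ, 0 < C ∧ ∀ u L : ℕ, 1 ≤ L →
    ((pairs u L).card : ℝ) ≤ C * (L : ℝ) ^ 3 * ((u : ℝ) + L) ^ ε := by
  classical
  obtain ⟨C, hC, hd⟩ := Pool.Agent.H510R2.divisor_bound (ε / 6) (by positivity)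
  refine ⟨C ^ 2 * (8 : ℝ) ^ (ε / 3), by positivity, fun u L hL => ?_⟩
  have hX : (0 : ℝ) < (u : ℝ) + L := by
    have : (1 : ℝ) ≤ L := by exact_mod_cast hL
    have : (0 : ℝ) ≤ u := Nat.cast_nonneg u
    linarith
  have h1 : (pairs u L).card = ∑ w ∈ tri L,
      ((tri L).filter fun z => ssum z = ssum w ∧ cub u z = cub u w).card := by
    unfold pairs
    rw [Finset.card_filter, Finset.sum_product_right]
    refine Finset.sum_congr rfl fun w _ => ?_
    rw [Finset.card_filter]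
  have h2 : ∀ w ∈ tri L, (((tri L).filter fun z => ssum z = ssum w ∧ cub u z = cub u w).card : ℝ) ≤
      C ^ 2 * (8 : ℝ) ^ (ε / 3) * ((u : ℝ) + L) ^ ε := by
    intro w hw
    have h3 := card_fib u L w hw
    simp only [tri, mem_product, mem_Icc] at hw
    have hD : 1 ≤ prd u w := by
      unfold prd
      have h1 : 0 < (u + w.1) + (u + w.2.1) := by omega
      have h2 : 0 < (u + w.2.1) + (u + w.2.2) := by omega
      have h3 : 0 < (u + w.2.2) + (u + w.1) := by omega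
      have : 0 < ((u + w.1) + (u + w.2.1)) * ((u + w.2.1) + (u + w.2.2)) * ((u + w.2.2) + (u + w.1)) := by
        positivity
      exact this
    have hD2 : prd u w ≤ (2 * (u + L)) ^ 3 := by
      unfold prd
      have h1 : (u + w.1) + (u + w.2.1) ≤ 2 * (u + L) := by omega
      have h2 : (u + w.2.1) + (u + w.2.2) ≤ 2 * (u + L) := by omega
      have h3 : (u + w.2.2) + (u + w.1) ≤ 2 * (u + L) := by omega
      calc _ ≤ (2 * (u + L)) * (2 * (u + L)) * (2 * (u + L)) :=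
            Nat.mul_le_mul (Nat.mul_le_mul h1 h2) h3
        _ = _ := by ring
    have h4 := hd _ hD
    have h5 : ((prd u w : ℕ) : ℝ) ^ (ε / 6) ≤ ((2 * ((u : ℝ) + L)) ^ 3) ^ (ε / 6) := by
      refine Real.rpow_le_rpow (Nat.cast_nonneg _) ?_ (by positivity)
      exact_mod_cast hD2
    have h6 : (((prd u w).divisors.card : ℕ) : ℝ) ≤ C * ((2 * ((u : ℝ) + L)) ^ 3) ^ (ε / 6) :=
      h4.trans (mul_le_mul_of_nonneg_left h5 hC.le)
    calc (((tri L).filter fun z => ssum z = ssum w ∧ cub u z = cub u w).card : ℝ)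
        ≤ (((prd u w).divisors.card : ℕ) : ℝ) ^ 2 := by exact_mod_cast h3
      _ ≤ (C * ((2 * ((u : ℝ) + L)) ^ 3) ^ (ε / 6)) ^ 2 := pow_le_pow_left₀ (Nat.cast_nonneg _) h6 2
      _ = C ^ 2 * (8 : ℝ) ^ (ε / 3) * ((u : ℝ) + L) ^ ε := by
          rw [mul_pow, mul_assoc]
          congr 1
          rw [show ((2 * ((u : ℝ) + L)) ^ 3) = 8 * ((u : ℝ) + L) ^ 3 by ring,
            Real.mul_rpow (by norm_num) (by positivity), mul_pow]
          congr 1
          · rw [← Real.rpow_natCast, ← Real.rpow_mul (by norm_num)]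
            congr 1
            push_cast
            ring
          · rw [← Real.rpow_natCast (((u : ℝ) + L)) 3, ← Real.rpow_mul hX.le, ← Real.rpow_natCast,
              ← Real.rpow_mul hX.le]
            congr 1
            push_cast
            ring
  rw [h1]
  push_cast
  calc _ ≤ ∑ _w ∈ tri L, C ^ 2 * (8 : ℝ) ^ (ε / 3) * ((u : ℝ) + L) ^ ε := Finset.sum_le_sum h2
    _ = _ := by
        rw [Finset.sum_const, nsmul_eq_mul]
        have : ((tri L).card : ℝ) = (L : ℝ) ^ 3 := by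
          simp only [tri, Finset.card_product, Nat.card_Icc, Nat.add_sub_cancel]
          push_cast
          ring
        rw [this]
        ring

end Pool.Agent.R219.CU
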