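import Mathlib
import Pool.Agent.R219.CU.Cnt
import Pool.Agent.TH181.MX.Lin

set_option autoImplicit false

/-!
# The sixth moment of cubic sums over short intervals, uniformly in the linear coefficient
-/

namespace Pool.Agent.R219.CU

open Finset MeasureTheory
open Pool.Agent.W928.MW (e e_add e_norm e_cont)
open Pool.Agent.TH181.MX (max_pt wt wt_nonneg wt_sum parseval)

/-- coefficient of a triple -/
noncomputable def cf (c : ℕ → ℂ) (u : ℕ) (z : ℕ × ℕ × ℕ) : ℂ :=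
  c (u + z.1) * c (u + z.2.1) * c (u + z.2.2)

/-- the triples with given sum -/
def fs (L m : ℕ) : Finset (ℕ × ℕ × ℕ) := (tri L).filter fun z => ssum z = m

noncomputable def G (c : ℕ → ℂ) (u L m : ℕ) (t : ℝ) : ℂ :=
  ∑ z ∈ fs L m, cf c u z * e (t * (cub u z : ℝ))

noncomputable def Q (c : ℕ → ℂ) (u L : ℕ) (t : ℝ) : ℝ := ∑ m ∈ range (3 * L + 1), ‖G c u L m t‖ ^ 2

/-- the sum over the first `L` integers after `u`, up to a factor of absolute value one -/
noncomputable def bs (c : ℕ → ℂ) (u L : ℕ) (t ξ : ℝ) : ℂ :=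
  ∑ n ∈ Icc 1 L, (c (u + n) * e (t * ((u + n : ℕ) : ℝ) ^ 3)) * e (ξ * n)

theorem bs_cube (c : ℕ → ℂ) (u L : ℕ) (t ξ : ℝ) :
    bs c u L t ξ ^ 3 = ∑ m ∈ range (3 * L + 1), e (ξ * m) * G c u L m t := by
  have h1 : bs c u L t ξ ^ 3 = ∑ z ∈ tri L,
      e (ξ * ((ssum z : ℕ) : ℝ)) * (cf c u z * e (t * (cub u z : ℝ))) := by
    have e1 : bs c u L t ξ ^ 3 = bs c u L t ξ * (bs c u L t ξ * bs c u L t ξ) := by ring
    rw [e1]
    unfold bs tri
    rw [Finset.sum_mul_sum, Finset.sum_mul_sum, Finset.sum_product]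
    refine Finset.sum_congr rfl fun x _ => ?_
    rw [Finset.sum_product]
    refine Finset.sum_congr rfl fun y _ => ?_
    rw [Finset.mul_sum]
    refine Finset.sum_congr rfl fun z _ => ?_
    have e2 : e (ξ * ((ssum (x, y, z) : ℕ) : ℝ)) = e (ξ * x) * (e (ξ * y) * e (ξ * z)) := by
      rw [← e_add, ← e_add]
      congr 1
      simp only [ssum]
      push_cast
      ring
    have e3 : e (t * (cub u (x, y, z) : ℝ)) = e (t * ((u + x : ℕ) : ℝ) ^ 3) *
        (e (t * ((u + y : ℕ) : ℝ) ^ 3) * e (t * ((u + z : ℕ) : ℝ) ^ 3)) := by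
      rw [← e_add, ← e_add]
      congr 1
      simp only [cub]
      push_cast
      ring
    rw [e2, e3]
    simp only [cf]
    ring
  rw [h1, ← Finset.sum_fiberwise_of_maps_to (s := tri L) (t := range (3 * L + 1)) (g := ssum)]
  · refine Finset.sum_congr rfl fun m _ => ?_
    unfold G fs
    rw [Finset.mul_sum]
    refine Finset.sum_congr rfl fun z hz => ?_
    rw [Finset.mem_filter] at hz
    rw [hz.2]
  · intro z hz
    simp only [tri, mem_product, mem_Icc] at hz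
    simp only [ssum, Finset.mem_range]
    omega

theorem sup6 (c : ℕ → ℂ) (u L : ℕ) (t ξ : ℝ) :
    ‖bs c u L t ξ‖ ^ 6 ≤ (3 * (L : ℝ) + 1) * Q c u L t := by
  have h1 : ‖bs c u L t ξ‖ ^ 6 = ‖bs c u L t ξ ^ 3‖ ^ 2 := by
    rw [norm_pow]; ring
  rw [h1, bs_cube]
  have h2 : ‖∑ m ∈ range (3 * L + 1), e (ξ * m) * G c u L m t‖ ≤
      ∑ m ∈ range (3 * L + 1), ‖G c u L m t‖ := by
    refine (norm_sum_le _ _).trans (le_of_eq ?_)
    apply Finset.sum_congr rfl
    intro m _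
    rw [norm_mul, e_norm, one_mul]
  have h3 := sq_sum_le_card_mul_sum_sq (s := range (3 * L + 1)) (f := fun m => ‖G c u L m t‖)
  rw [Finset.card_range] at h3
  have h4 : (((3 * L + 1 : ℕ) : ℝ)) = 3 * (L : ℝ) + 1 := by push_cast; ring
  rw [h4] at h3
  refine le_trans ?_ h3
  exact pow_le_pow_left₀ (norm_nonneg _) h2 2

theorem G_cont (c : ℕ → ℂ) (u L m : ℕ) : Continuous (G c u L m) := by
  unfold G
  refine continuous_finsetSum _ fun z _ => ?_
  exact continuous_const.mul (e_cont.comp (by fun_prop))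

theorem Q_cont (c : ℕ → ℂ) (u L : ℕ) : Continuous (Q c u L) := by
  unfold Q
  exact continuous_finsetSum _ fun m _ => ((G_cont c u L m).norm.pow 2)

theorem Q_nonneg (c : ℕ → ℂ) (u L : ℕ) (t : ℝ) : 0 ≤ Q c u L t :=
  Finset.sum_nonneg fun m _ => sq_nonneg _

/-- second moment of an exponential sum with integral frequencies -/
theorem int_sq {ι : Type} [DecidableEq ι] (Z : Finset ι) (φ : ι → ℤ) (b : ι → ℂ) (hb : ∀ z, ‖b z‖ ≤ 1) (a : ℤ) :
    ∫ t in (a : ℝ)..((a + 1 : ℤ) : ℝ), ‖∑ z ∈ Z, b z * e (t * (φ z : ℝ))‖ ^ 2 ≤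
      (((Z ×ˢ Z).filter fun p => φ p.1 = φ p.2).card : ℝ) := by
  have h1 : ∀ t : ℝ, ∑ z ∈ Z, b z * e (t * (φ z : ℝ)) =
      ∑ v ∈ Z.image φ, e (t * ((id v : ℤ) : ℝ)) * ∑ z ∈ Z.filter (fun z => φ z = v), b z := by
    intro t
    rw [← Finset.sum_fiberwise_of_maps_to (s := Z) (t := Z.image φ) (g := φ)
      (fun z hz => Finset.mem_image_of_mem φ hz)]
    refine Finset.sum_congr rfl fun v _ => ?_
    rw [Finset.mul_sum]
    refine Finset.sum_congr rfl fun z hz => ?_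
    rw [Finset.mem_filter] at hz
    rw [hz.2, id]
    ring
  simp only [h1]
  rw [parseval (Z.image φ) id (Set.injOn_id _) (fun v => ∑ z ∈ Z.filter (fun z => φ z = v), b z) a (a + 1)]
  have h2 : (((a + 1 : ℤ) : ℝ) - a) = 1 := by push_cast; ring
  rw [h2, one_mul]
  have h3 : ((Z ×ˢ Z).filter fun p => φ p.1 = φ p.2).card =
      ∑ v ∈ Z.image φ, (Z.filter (fun z => φ z = v)).card ^ 2 := by
    rw [Finset.card_filter, Finset.sum_product]
    rw [← Finset.sum_fiberwise_of_maps_to (s := Z) (t := Z.image φ) (g := φ)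
      (fun z hz => Finset.mem_image_of_mem φ hz)]
    refine Finset.sum_congr rfl fun v _ => ?_
    have : ∀ z ∈ Z.filter (fun z => φ z = v), ∑ w ∈ Z, (if φ z = φ w then 1 else 0) =
        (Z.filter (fun z => φ z = v)).card := by
      intro z hz
      rw [Finset.mem_filter] at hz
      rw [hz.2, Finset.card_filter]
      refine Finset.sum_congr rfl fun w _ => ?_
      simp only [eq_comm]
    rw [Finset.sum_congr rfl this, Finset.sum_const, smul_eq_mul, sq]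
  rw [h3]
  push_cast
  refine Finset.sum_le_sum fun v _ => ?_
  refine pow_le_pow_left₀ (norm_nonneg _) ?_ 2
  refine (norm_sum_le _ _).trans ?_
  calc _ ≤ ∑ _z ∈ Z.filter (fun z => φ z = v), (1 : ℝ) := Finset.sum_le_sum fun z _ => hb z
    _ = _ := by rw [Finset.sum_const, nsmul_eq_mul, mul_one]

theorem cf_le {c : ℕ → ℂ} (hc : ∀ n, ‖c n‖ ≤ 1) (u : ℕ) (z : ℕ × ℕ × ℕ) : ‖cf c u z‖ ≤ 1 := by
  unfold cf
  rw [norm_mul, norm_mul]
  exact mul_le_one₀ (mul_le_one₀ (hc _) (norm_nonneg _) (hc _)) (norm_nonneg _) (hc _)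

theorem Q_int {c : ℕ → ℂ} (hc : ∀ n, ‖c n‖ ≤ 1) (u L : ℕ) (a : ℤ) :
    ∫ t in (a : ℝ)..((a + 1 : ℤ) : ℝ), Q c u L t ≤ ((pairs u L).card : ℝ) := by
  unfold Q
  rw [intervalIntegral.integral_finsetSum (f := fun m t => ‖G c u L m t‖ ^ 2)
    (fun m _ => Continuous.intervalIntegrable ((G_cont c u L m).norm.pow 2) _ _)]
  have h1 : ∀ m ∈ range (3 * L + 1), ∫ t in (a : ℝ)..((a + 1 : ℤ) : ℝ), ‖G c u L m t‖ ^ 2 ≤
      (((fs L m ×ˢ fs L m).filter fun p => cub u p.1 = cub u p.2).card : ℝ) := fun m _ =>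
    int_sq (fs L m) (cub u) (cf c u) (cf_le hc u) a
  refine (Finset.sum_le_sum h1).trans ?_
  have h2 : (pairs u L).card = ∑ m ∈ range (3 * L + 1),
      ((pairs u L).filter fun p => ssum p.1 = m).card := by
    refine Finset.card_eq_sum_card_fiberwise fun p hp => ?_
    rw [Finset.mem_coe] at hp ⊢
    simp only [pairs, tri, mem_filter, mem_product, mem_Icc] at hp
    simp only [ssum, Finset.mem_range]
    omega
  rw [h2]
  push_cast
  refine Finset.sum_le_sum fun m _ => ?_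
  have h3 : (fs L m ×ˢ fs L m).filter (fun p => cub u p.1 = cub u p.2) ⊆
      (pairs u L).filter fun p => ssum p.1 = m := by
    intro p hp
    simp only [fs, pairs, mem_filter, mem_product] at hp ⊢
    refine ⟨⟨⟨hp.1.1.1, hp.1.2.1⟩, ?_, hp.2⟩, hp.1.1.2⟩
    rw [hp.1.1.2, hp.1.2.2]
  exact_mod_cast Finset.card_le_card h3

/-- initial segments of a block -/
theorem bs_max {c : ℕ → ℂ} (u : ℕ) {L M : ℕ} (hL : 1 ≤ L) (hM : M ≤ L) (t ξ : ℝ) :
    ‖bs c u M t ξ‖ ^ 6 ≤ (2 + Real.log L) ^ 6 * ((3 * (L : ℝ) + 1) * Q c u L t) := by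
  set F : ℝ := (3 * (L : ℝ) + 1) * Q c u L t with hF
  have hF0 : 0 ≤ F := mul_nonneg (by positivity) (Q_nonneg c u L t)
  have h1 : ∀ η : ℝ, ‖bs c u L t η‖ ≤ F ^ (1 / 6 : ℝ) := by
    intro η
    have h2 := sup6 c u L t η
    have h3 : ‖bs c u L t η‖ = (‖bs c u L t η‖ ^ 6) ^ (1 / 6 : ℝ) := by
      rw [← Real.rpow_natCast, ← Real.rpow_mul (norm_nonneg _)]
      norm_num
    rw [h3]
    exact Real.rpow_le_rpow (by positivity) h2 (by norm_num)
  have h3 := max_pt L M hL hM (fun n => c (u + n) * e (t * ((u + n : ℕ) : ℝ) ^ 3)) ξ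
  have hlog : 0 ≤ Real.log L := Real.log_natCast_nonneg L
  have h4 : ‖bs c u M t ξ‖ ≤ (2 + Real.log L) * F ^ (1 / 6 : ℝ) := by
    unfold bs
    refine h3.trans ?_
    calc _ ≤ ∑ b ∈ range L, wt L b * F ^ (1 / 6 : ℝ) := by
          refine Finset.sum_le_sum fun b hb => ?_
          exact mul_le_mul_of_nonneg_left (h1 _) (wt_nonneg L b (Finset.mem_range.1 hb))
      _ = (∑ b ∈ range L, wt L b) * F ^ (1 / 6 : ℝ) := by rw [Finset.sum_mul]
      _ ≤ _ := mul_le_mul_of_nonneg_right (wt_sum L hL) (by positivity)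
  calc ‖bs c u M t ξ‖ ^ 6 ≤ ((2 + Real.log L) * F ^ (1 / 6 : ℝ)) ^ 6 :=
        pow_le_pow_left₀ (norm_nonneg _) h4 6
    _ = (2 + Real.log L) ^ 6 * (F ^ (1 / 6 : ℝ)) ^ 6 := by rw [mul_pow]
    _ = _ := by
        congr 1
        rw [← Real.rpow_natCast, ← Real.rpow_mul hF0]
        norm_num

end Pool.Agent.R219.CU
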