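import Mathlib
import Pool.Agent.R219.CU.Mom

set_option autoImplicit false

/-!
# Cubic sums over all short intervals, for almost all leading coefficients
-/

namespace Pool.Agent.R219.CU

open Finset MeasureTheory Filter Topology
open Pool.Agent.W928.MW (e e_add e_norm e_cont)

/-- the sum over `(M, M + N]` -/
noncomputable def sg (c : ℕ → ℂ) (M N : ℕ) (t ξ : ℝ) : ℂ :=
  ∑ n ∈ Ioc M (M + N), c n * e (t * (n : ℝ) ^ 3 + ξ * (n : ℝ))

theorem sg_eq (c : ℕ → ℂ) (u N : ℕ) (t ξ : ℝ) : sg c u N t ξ = e (ξ * u) * bs c u N t ξ := by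
  unfold sg bs
  rw [Finset.mul_sum]
  symm
  refine Finset.sum_nbij (fun n => u + n) ?_ ?_ ?_ ?_
  · intro n hn
    rw [mem_Icc] at hn
    rw [mem_Ioc]
    omega
  · intro x _ y _ h
    simpa using h
  · intro n hn
    rw [Finset.mem_coe, mem_Ioc] at hn
    refine ⟨n - u, ?_, ?_⟩
    · rw [Finset.mem_coe, mem_Icc]; omega
    · simp only; omega
  · intro n _
    have h1 : e (t * ((u + n : ℕ) : ℝ) ^ 3 + ξ * ((u + n : ℕ) : ℝ)) =
        e (ξ * u) * (e (t * ((u + n : ℕ) : ℝ) ^ 3) * e (ξ * n)) := by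
      rw [← e_add, ← e_add]
      congr 1
      push_cast
      ring
    rw [h1]
    ring

theorem sg_norm (c : ℕ → ℂ) (u N : ℕ) (t ξ : ℝ) : ‖sg c u N t ξ‖ = ‖bs c u N t ξ‖ := by
  rw [sg_eq, norm_mul, e_norm, one_mul]

/-- any interval inside a block -/
theorem sg_split (c : ℕ → ℂ) (u r N : ℕ) (t ξ : ℝ) :
    ‖sg c (u + r) N t ξ‖ ≤ ‖bs c u (r + N) t ξ‖ + ‖bs c u r t ξ‖ := by
  have h1 : sg c u (r + N) t ξ = sg c u r t ξ + sg c (u + r) N t ξ := by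
    unfold sg
    rw [← Finset.sum_union]
    · congr 1
      ext n
      simp only [mem_union, mem_Ioc]
      omega
    · rw [Finset.disjoint_left]
      intro n hn hn'
      rw [mem_Ioc] at hn hn'
      omega
  have h2 : sg c (u + r) N t ξ = sg c u (r + N) t ξ - sg c u r t ξ := by rw [h1]; ring
  rw [h2, ← sg_norm c u (r + N), ← sg_norm c u r]
  exact norm_sub_le _ _

theorem log_le {κ : ℝ} (hκ : 0 < κ) {x : ℝ} (hx : 1 ≤ x) : 2 + Real.log x ≤ (2 + 1 / κ) * x ^ κ := by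
  have h1 := Real.log_le_rpow_div (by linarith : 0 ≤ x) hκ
  have h2 : 1 ≤ x ^ κ := Real.one_le_rpow hx hκ.le
  have h3 : x ^ κ / κ = 1 / κ * x ^ κ := by ring
  rw [h3] at h1
  nlinarith

/-- the block sums at two dyadic scales -/
noncomputable def F (c : ℕ → ℂ) (J i : ℕ) (t : ℝ) : ℝ :=
  ∑ j ∈ range (2 ^ (J - i)), (3 * ((2 * 2 ^ i : ℕ) : ℝ) + 1) * Q c (j * 2 ^ i) (2 * 2 ^ i) t

theorem F_cont (c : ℕ → ℂ) (J i : ℕ) : Continuous (F c J i) := by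
  unfold F
  exact continuous_finsetSum _ fun j _ => continuous_const.mul (Q_cont c _ _)

theorem F_nonneg (c : ℕ → ℂ) (J i : ℕ) (t : ℝ) : 0 ≤ F c J i t :=
  Finset.sum_nonneg fun j _ => mul_nonneg (by positivity) (Q_nonneg c _ _ t)

theorem mean {δ : ℝ} (hδ : 0 < δ) : ∃ C : ℝ, 0 < C ∧ ∀ c : ℕ → ℂ, (∀ n, ‖c n‖ ≤ 1) →
    ∀ J i : ℕ, i ≤ J → ∀ a : ℤ, ∫ t in (a : ℝ)..((a + 1 : ℤ) : ℝ), F c J i t ≤
      C * (((2 : ℝ) ^ i) ^ 3 * ((2 : ℝ) ^ J) ^ (1 + δ)) := by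
  obtain ⟨C, hC, hp⟩ := card_pairs hδ
  refine ⟨56 * C * (3 : ℝ) ^ δ, by positivity, fun c hc J i hi a => ?_⟩
  unfold F
  rw [intervalIntegral.integral_finsetSum
    (f := fun j t => (3 * ((2 * 2 ^ i : ℕ) : ℝ) + 1) * Q c (j * 2 ^ i) (2 * 2 ^ i) t)
    (fun j _ => Continuous.intervalIntegrable (continuous_const.mul (Q_cont c _ _)) _ _)]
  have hi0 : (1 : ℝ) ≤ (2 : ℝ) ^ i := one_le_pow₀ (by norm_num)
  have hJ0 : (1 : ℝ) ≤ (2 : ℝ) ^ J := one_le_pow₀ (by norm_num)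
  have h1 : ∀ j ∈ range (2 ^ (J - i)), ∫ t in (a : ℝ)..((a + 1 : ℤ) : ℝ),
      (3 * ((2 * 2 ^ i : ℕ) : ℝ) + 1) * Q c (j * 2 ^ i) (2 * 2 ^ i) t ≤
      (7 * (2 : ℝ) ^ i) * (C * (2 * (2 : ℝ) ^ i) ^ 3 * (3 * (2 : ℝ) ^ J) ^ δ) := by
    intro j hj
    rw [Finset.mem_range] at hj
    rw [intervalIntegral.integral_const_mul]
    have h2 := Q_int hc (j * 2 ^ i) (2 * 2 ^ i) a
    have h3 := hp (j * 2 ^ i) (2 * 2 ^ i) (by
      have : 1 ≤ 2 ^ i := Nat.one_le_two_pow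
      omega)
    have h4 : ((j * 2 ^ i : ℕ) : ℝ) + ((2 * 2 ^ i : ℕ) : ℝ) ≤ 3 * (2 : ℝ) ^ J := by
      have h5 : j * 2 ^ i + 2 * 2 ^ i ≤ 3 * 2 ^ J := by
        have h6 : j * 2 ^ i ≤ 2 ^ (J - i) * 2 ^ i := Nat.mul_le_mul_right _ hj.le
        rw [← pow_add, Nat.sub_add_cancel hi] at h6
        have h7 : 2 ^ i ≤ 2 ^ J := Nat.pow_le_pow_right (by norm_num) hi
        omega
      exact_mod_cast h5
    have h5 : (((j * 2 ^ i : ℕ) : ℝ) + ((2 * 2 ^ i : ℕ) : ℝ)) ^ δ ≤ (3 * (2 : ℝ) ^ J) ^ δ :=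
      Real.rpow_le_rpow (by positivity) h4 hδ.le
    have h6 : (3 * ((2 * 2 ^ i : ℕ) : ℝ) + 1) ≤ 7 * (2 : ℝ) ^ i := by
      push_cast
      linarith
    have h7 : (((2 * 2 ^ i : ℕ) : ℝ)) = 2 * (2 : ℝ) ^ i := by push_cast; ring
    have h8 : ∫ t in (a : ℝ)..((a + 1 : ℤ) : ℝ), Q c (j * 2 ^ i) (2 * 2 ^ i) t ≤
        C * (2 * (2 : ℝ) ^ i) ^ 3 * (3 * (2 : ℝ) ^ J) ^ δ := by
      refine h2.trans (h3.trans ?_)
      rw [← h7]
      exact mul_le_mul_of_nonneg_left h5 (by positivity)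
    have h9 : 0 ≤ ∫ t in (a : ℝ)..((a + 1 : ℤ) : ℝ), Q c (j * 2 ^ i) (2 * 2 ^ i) t :=
      intervalIntegral.integral_nonneg (by push_cast; linarith) fun t _ => Q_nonneg c _ _ t
    exact mul_le_mul h6 h8 h9 (by positivity)
  refine (Finset.sum_le_sum h1).trans (le_of_eq ?_)
  rw [Finset.sum_const, Finset.card_range, nsmul_eq_mul]
  have h2 : (((2 ^ (J - i) : ℕ) : ℝ)) * (2 : ℝ) ^ i = (2 : ℝ) ^ J := by
    push_cast
    rw [← pow_add, Nat.sub_add_cancel hi]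
  have h3 : ((2 : ℝ) ^ J) ^ (1 + δ) = (2 : ℝ) ^ J * ((2 : ℝ) ^ J) ^ δ := by
    rw [Real.rpow_add (by positivity), Real.rpow_one]
  rw [h3, Real.mul_rpow (by norm_num) (by positivity)]
  calc _ = (((2 ^ (J - i) : ℕ) : ℝ) * (2 : ℝ) ^ i) *
        (56 * C * (3 : ℝ) ^ δ * ((2 : ℝ) ^ i) ^ 3 * ((2 : ℝ) ^ J) ^ δ) := by ring
    _ = _ := by rw [h2]; ring

/-- the unit interval as a measure -/
noncomputable def un (a : ℤ) : Measure ℝ := volume.restrict (Set.Ioc (a : ℝ) ((a + 1 : ℤ) : ℝ))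

instance (a : ℤ) : IsFiniteMeasure (un a) := by
  unfold un
  infer_instance

theorem int_un (a : ℤ) (f : ℝ → ℝ) : ∫ t, f t ∂(un a) = ∫ t in (a : ℝ)..((a + 1 : ℤ) : ℝ), f t := by
  unfold un
  rw [intervalIntegral.integral_of_le (by push_cast; linarith)]

theorem markov (a : ℤ) {f : ℝ → ℝ} (hf : Continuous f) (hf0 : ∀ t, 0 ≤ f t) {K V : ℝ} (hV : 0 < V)
    (hK : ∫ t in (a : ℝ)..((a + 1 : ℤ) : ℝ), f t ≤ K) :
    un a {t | V ≤ f t} ≤ ENNReal.ofReal (K / V) := by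
  have hi : Integrable f (un a) := by
    have h1 : IntervalIntegrable f volume (a : ℝ) ((a + 1 : ℤ) : ℝ) := hf.intervalIntegrable _ _
    rw [intervalIntegrable_iff_integrableOn_Ioc_of_le (by push_cast; linarith)] at h1
    exact h1
  have h2 := mul_meas_ge_le_integral_of_nonneg (μ := un a) (f := f)
    (Filter.Eventually.of_forall hf0) hi V
  rw [int_un] at h2
  have h4 : (un a).real {t | V ≤ f t} ≤ K / V := by
    rw [le_div_iff₀ hV]
    calc _ = V * (un a).real {t | V ≤ f t} := mul_comm _ _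
      _ ≤ _ := h2
      _ ≤ _ := hK
  rw [← ENNReal.ofReal_toReal (measure_ne_top (un a) {t | V ≤ f t})]
  exact ENNReal.ofReal_le_ofReal h4

theorem ae_F {δ : ℝ} (hδ : 0 < δ) {c : ℕ → ℂ} (hc : ∀ n, ‖c n‖ ≤ 1) (a : ℤ) :
    ∀ᵐ t ∂(un a), ∃ J₀ : ℕ, ∀ J, J₀ ≤ J → ∀ i, i ≤ J →
      F c J i t ≤ ((2 : ℝ) ^ i) ^ 3 * ((2 : ℝ) ^ J) ^ (1 + 2 * δ) := by
  obtain ⟨C, hC, hm⟩ := mean hδ
  set r : ℝ := (2 : ℝ) ^ (-δ) with hr
  have hr0 : 0 < r := by positivity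
  have hr1 : r < 1 := by
    rw [hr]
    exact Real.rpow_lt_one_of_one_lt_of_neg (by norm_num) (by linarith)
  set B : ℕ → Set ℝ := fun J => ⋃ i ∈ range (J + 1),
    {t : ℝ | ((2 : ℝ) ^ i) ^ 3 * ((2 : ℝ) ^ J) ^ (1 + 2 * δ) ≤ F c J i t} with hB
  have hbound : ∀ J, un a (B J) ≤ ENNReal.ofReal (((J : ℝ) + 1) * (C * r ^ J)) := by
    intro J
    refine (measure_biUnion_finset_le _ _).trans ?_
    have h1 : ∀ i ∈ range (J + 1), un a
        {t : ℝ | ((2 : ℝ) ^ i) ^ 3 * ((2 : ℝ) ^ J) ^ (1 + 2 * δ) ≤ F c J i t} ≤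
        ENNReal.ofReal (C * r ^ J) := by
      intro i hi
      rw [Finset.mem_range] at hi
      refine (markov a (F_cont c J i) (F_nonneg c J i) (by positivity)
        (hm c hc J i (by omega) a)).trans (le_of_eq ?_)
      congr 1
      have h2 : ((2 : ℝ) ^ J) ^ (1 + 2 * δ) = ((2 : ℝ) ^ J) ^ (1 + δ) * ((2 : ℝ) ^ J) ^ δ := by
        rw [← Real.rpow_add (by positivity)]
        congr 1
        ring
      have h3 : r ^ J = (((2 : ℝ) ^ J) ^ δ)⁻¹ := by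
        rw [hr, ← Real.rpow_natCast, ← Real.rpow_mul (by norm_num), ← Real.rpow_natCast,
          ← Real.rpow_mul (by norm_num), ← Real.rpow_neg (by norm_num)]
        congr 1
        ring
      rw [h2, h3]
      have h4 : 0 < ((2 : ℝ) ^ i) ^ 3 := by positivity
      have h5 : 0 < ((2 : ℝ) ^ J) ^ (1 + δ) := by positivity
      have h6 : 0 < ((2 : ℝ) ^ J) ^ δ := by positivity
      field_simp
    refine (Finset.sum_le_sum h1).trans (le_of_eq ?_)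
    rw [Finset.sum_const, Finset.card_range, nsmul_eq_mul,
      ENNReal.ofReal_mul (by positivity : (0 : ℝ) ≤ (J : ℝ) + 1)]
    congr 1
    rw [show ((J : ℝ) + 1) = ((J + 1 : ℕ) : ℝ) by push_cast; ring, ENNReal.ofReal_natCast]
  have hsum : Summable fun J : ℕ => ((J : ℝ) + 1) * (C * r ^ J) := by
    have h1 : Summable fun J : ℕ => (J : ℝ) ^ 1 * r ^ J :=
      summable_pow_mul_geometric_of_norm_lt_one 1 (by
        rw [Real.norm_eq_abs, abs_of_pos hr0]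
        exact hr1)
    have h2 : Summable fun J : ℕ => r ^ J := summable_geometric_of_lt_one hr0.le hr1
    refine ((h1.mul_left C).add (h2.mul_left C)).congr fun J => ?_
    ring
  have hfin : ∑' J, un a (B J) ≠ ⊤ := by
    refine ne_top_of_le_ne_top ?_ (ENNReal.tsum_le_tsum hbound)
    rw [← ENNReal.ofReal_tsum_of_nonneg (fun J => by positivity) hsum]
    exact ENNReal.ofReal_ne_top
  filter_upwards [ae_eventually_notMem hfin] with t ht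
  obtain ⟨J₀, hJ₀⟩ := eventually_atTop.1 ht
  refine ⟨J₀, fun J hJ i hi => ?_⟩
  by_contra hcon
  push Not at hcon
  refine hJ₀ J hJ ?_
  simp only [hB, Set.mem_iUnion, Set.mem_setOf_eq, Finset.mem_range]
  exact ⟨i, by omega, hcon.le⟩

end Pool.Agent.R219.CU
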