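import Mathlib
import Pool.Agent.R219.CU.Main

set_option autoImplicit false

/-!
# Cubic sums over all short intervals, for almost all leading coefficients: conclusion
-/

namespace Pool.Agent.R219.CU

open Finset MeasureTheory Filter Topology
open Pool.Agent.W928.MW (e e_add e_norm e_cont)

theorem bs_bound {θ κ : ℝ} (hκ : 0 < κ) {c : ℕ → ℂ} {t : ℝ} {J i j : ℕ}
    (hj : j < 2 ^ (J - i)) (hi : i ≤ J)
    (h : F c J i t ≤ ((2 : ℝ) ^ i) ^ 3 * ((2 : ℝ) ^ J) ^ (1 + 6 * θ)) {r : ℕ} (hr : r ≤ 2 * 2 ^ i) (ξ : ℝ) :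
    ‖bs c (j * 2 ^ i) r t ξ‖ ≤ ((2 + 1 / κ) * (2 : ℝ) ^ κ) *
      (((2 : ℝ) ^ i) ^ (1 / 2 : ℝ) * ((2 : ℝ) ^ J) ^ (1 / 6 + (θ + κ))) := by
  have hi0 : (1 : ℝ) ≤ (2 : ℝ) ^ i := one_le_pow₀ (by norm_num)
  have hJ0 : (1 : ℝ) ≤ (2 : ℝ) ^ J := one_le_pow₀ (by norm_num)
  have hij : (2 : ℝ) ^ i ≤ (2 : ℝ) ^ J := pow_le_pow_right₀ (by norm_num) hi
  have hL : 1 ≤ 2 * 2 ^ i := by
    have : 1 ≤ 2 ^ i := Nat.one_le_two_pow
    omega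
  have h1 := bs_max (c := c) (j * 2 ^ i) hL hr t ξ
  have h2 : (3 * ((2 * 2 ^ i : ℕ) : ℝ) + 1) * Q c (j * 2 ^ i) (2 * 2 ^ i) t ≤ F c J i t := by
    unfold F
    exact Finset.single_le_sum
      (f := fun j => (3 * ((2 * 2 ^ i : ℕ) : ℝ) + 1) * Q c (j * 2 ^ i) (2 * 2 ^ i) t)
      (fun j _ => mul_nonneg (by positivity) (Q_nonneg c _ _ t)) (Finset.mem_range.2 hj)
  have hlog : 0 ≤ Real.log ((2 * 2 ^ i : ℕ) : ℝ) := Real.log_natCast_nonneg _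
  have hcast : (((2 * 2 ^ i : ℕ) : ℝ)) = 2 * (2 : ℝ) ^ i := by push_cast; ring
  have h3 : ‖bs c (j * 2 ^ i) r t ξ‖ ^ 6 ≤ ((2 + Real.log ((2 * 2 ^ i : ℕ) : ℝ)) *
      (((2 : ℝ) ^ i) ^ (1 / 2 : ℝ) * ((2 : ℝ) ^ J) ^ ((1 + 6 * θ) / 6))) ^ 6 := by
    refine (h1.trans (mul_le_mul_of_nonneg_left (h2.trans h) (by positivity))).trans (le_of_eq ?_)
    rw [mul_pow, mul_pow]
    congr 1
    congr 1
    · rw [← Real.rpow_natCast (((2 : ℝ) ^ i) ^ (1 / 2 : ℝ)) 6, ← Real.rpow_mul (by positivity),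
        ← Real.rpow_natCast ((2 : ℝ) ^ i) 3]
      congr 1
      push_cast
      ring
    · rw [← Real.rpow_natCast (((2 : ℝ) ^ J) ^ ((1 + 6 * θ) / 6)) 6, ← Real.rpow_mul (by positivity)]
      congr 1
      push_cast
      ring
  have h4 := (pow_le_pow_iff_left₀ (norm_nonneg _) (by positivity) (by norm_num)).1 h3
  refine h4.trans ?_
  have h5 : 2 + Real.log ((2 * 2 ^ i : ℕ) : ℝ) ≤ (2 + 1 / κ) * (2 : ℝ) ^ κ *
      ((2 : ℝ) ^ J) ^ κ := by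
    rw [hcast]
    refine (log_le hκ (by linarith)).trans ?_
    rw [mul_assoc]
    refine mul_le_mul_of_nonneg_left ?_ (by positivity)
    rw [← Real.mul_rpow (by norm_num) (by positivity)]
    exact Real.rpow_le_rpow (by positivity) (by linarith) hκ.le
  calc _ ≤ ((2 + 1 / κ) * (2 : ℝ) ^ κ * ((2 : ℝ) ^ J) ^ κ) *
        (((2 : ℝ) ^ i) ^ (1 / 2 : ℝ) * ((2 : ℝ) ^ J) ^ ((1 + 6 * θ) / 6)) :=
        mul_le_mul_of_nonneg_right h5 (by positivity)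
    _ = ((2 + 1 / κ) * (2 : ℝ) ^ κ) * (((2 : ℝ) ^ i) ^ (1 / 2 : ℝ) *
        (((2 : ℝ) ^ J) ^ κ * ((2 : ℝ) ^ J) ^ ((1 + 6 * θ) / 6))) := by ring
    _ = _ := by
        rw [← Real.rpow_add (by positivity)]
        congr 3
        ring

theorem det {θ κ : ℝ} (hθ : 0 ≤ θ) (hκ : 0 < κ) {c : ℕ → ℂ} {t : ℝ} {J₀ : ℕ}
    (h : ∀ J, J₀ ≤ J → ∀ i, i ≤ J → F c J i t ≤ ((2 : ℝ) ^ i) ^ 3 * ((2 : ℝ) ^ J) ^ (1 + 6 * θ)) :
    ∃ C : ℝ, 0 < C ∧ ∀ M N : ℕ, 1 ≤ N → ∀ ξ : ℝ,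
      ‖sg c M N t ξ‖ ≤ C * (N : ℝ) ^ (1 / 2 : ℝ) * ((M : ℝ) + N) ^ (1 / 6 + (θ + κ)) := by
  set δ : ℝ := θ + κ with hδ
  set A : ℝ := (2 + 1 / κ) * (2 : ℝ) ^ κ with hA
  have hA0 : 0 < A := by positivity
  refine ⟨2 * A * (2 : ℝ) ^ (1 / 2 : ℝ) * (2 * (2 : ℝ) ^ J₀) ^ (1 / 6 + δ), by positivity,
    fun M N hN ξ => ?_⟩
  set i : ℕ := Nat.log 2 N + 1 with hi
  set J : ℕ := Nat.log 2 (M + N) + 1 + J₀ with hJ
  have hiJ : i ≤ J := by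
    have := Nat.log_mono_right (b := 2) (Nat.le_add_left N M)
    omega
  have hNL : N < 2 ^ i := Nat.lt_pow_succ_log_self (by norm_num) N
  have hMX : M + N < 2 ^ J := by
    have h2 := Nat.lt_pow_succ_log_self (b := 2) (by norm_num) (M + N)
    calc M + N < 2 ^ (Nat.log 2 (M + N) + 1) := h2
      _ ≤ 2 ^ J := Nat.pow_le_pow_right (by norm_num) (by omega)
  have hL2 : (2 : ℝ) ^ i ≤ 2 * N := by
    have h3 := Nat.pow_log_le_self 2 (show N ≠ 0 by omega)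
    have h4 : ((2 : ℝ) ^ Nat.log 2 N) ≤ N := by exact_mod_cast h3
    rw [hi, pow_succ]
    linarith
  have hX2 : (2 : ℝ) ^ J ≤ (2 * (2 : ℝ) ^ J₀) * ((M : ℝ) + N) := by
    have h3 := Nat.pow_log_le_self 2 (show M + N ≠ 0 by omega)
    have h4 : ((2 : ℝ) ^ Nat.log 2 (M + N)) ≤ (M : ℝ) + N := by exact_mod_cast h3
    have h5 : (2 : ℝ) ^ J = (2 * (2 : ℝ) ^ J₀) * (2 : ℝ) ^ Nat.log 2 (M + N) := by
      rw [hJ, pow_add, pow_add]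
      ring
    rw [h5]
    exact mul_le_mul_of_nonneg_left h4 (by positivity)
  have hj : M / 2 ^ i < 2 ^ (J - i) := by
    refine Nat.div_lt_of_lt_mul ?_
    rw [← pow_add, Nat.add_sub_cancel' hiJ]
    omega
  have hM : M / 2 ^ i * 2 ^ i + M % 2 ^ i = M := by
    rw [mul_comm]
    exact Nat.div_add_mod M (2 ^ i)
  have hr : M % 2 ^ i < 2 ^ i := Nat.mod_lt _ (by positivity)
  have hF := h J (by omega) i hiJ
  have h1 := bs_bound hκ (c := c) hj hiJ hF (r := M % 2 ^ i + N) (by omega) ξ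
  have h2 := bs_bound hκ (c := c) hj hiJ hF (r := M % 2 ^ i) (by omega) ξ
  have h3 := sg_split c (M / 2 ^ i * 2 ^ i) (M % 2 ^ i) N t ξ
  rw [hM] at h3
  rw [← hA, ← hδ] at h1 h2
  have h4 : ((2 : ℝ) ^ i) ^ (1 / 2 : ℝ) ≤ (2 : ℝ) ^ (1 / 2 : ℝ) * (N : ℝ) ^ (1 / 2 : ℝ) := by
    rw [← Real.mul_rpow (by norm_num) (Nat.cast_nonneg _)]
    exact Real.rpow_le_rpow (by positivity) hL2 (by norm_num)
  have h5 : ((2 : ℝ) ^ J) ^ (1 / 6 + δ) ≤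
      (2 * (2 : ℝ) ^ J₀) ^ (1 / 6 + δ) * ((M : ℝ) + N) ^ (1 / 6 + δ) := by
    rw [← Real.mul_rpow (by positivity) (by positivity)]
    exact Real.rpow_le_rpow (by positivity) hX2 (by positivity)
  calc ‖sg c M N t ξ‖ ≤ 2 * (A * (((2 : ℝ) ^ i) ^ (1 / 2 : ℝ) * ((2 : ℝ) ^ J) ^ (1 / 6 + δ))) := by
        linarith
    _ ≤ 2 * (A * (((2 : ℝ) ^ (1 / 2 : ℝ) * (N : ℝ) ^ (1 / 2 : ℝ)) *
        ((2 * (2 : ℝ) ^ J₀) ^ (1 / 6 + δ) * ((M : ℝ) + N) ^ (1 / 6 + δ)))) := by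
        refine mul_le_mul_of_nonneg_left (mul_le_mul_of_nonneg_left ?_ hA0.le) (by norm_num)
        exact mul_le_mul h4 h5 (by positivity) (by positivity)
    _ = _ := by ring

/-- **Almost all leading coefficients.** -/
theorem ae_all {c : ℕ → ℂ} (hc : ∀ n, ‖c n‖ ≤ 1) :
    ∀ᵐ t : ℝ, ∀ ε : ℝ, 0 < ε → ∃ C : ℝ, 0 < C ∧ ∀ M N : ℕ, 1 ≤ N → ∀ ξ : ℝ,
      ‖sg c M N t ξ‖ ≤ C * (N : ℝ) ^ (1 / 2 : ℝ) * ((M : ℝ) + N) ^ (1 / 6 + ε) := by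
  have h1 : ∀ a : ℤ, ∀ᵐ t ∂(un a), ∀ j : ℕ, ∃ C : ℝ, 0 < C ∧ ∀ M N : ℕ, 1 ≤ N → ∀ ξ : ℝ,
      ‖sg c M N t ξ‖ ≤ C * (N : ℝ) ^ (1 / 2 : ℝ) * ((M : ℝ) + N) ^ (1 / 6 + 1 / ((j : ℝ) + 1)) := by
    intro a
    rw [ae_all_iff]
    intro j
    filter_upwards [ae_F (δ := 1 / ((j : ℝ) + 1)) (by positivity) hc a] with t ht
    obtain ⟨J₀, hJ⟩ := ht
    have h2 := det (θ := 1 / ((j : ℝ) + 1) / 3) (κ := 2 * (1 / ((j : ℝ) + 1)) / 3) (by positivity)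
      (by positivity) (c := c) (t := t) (J₀ := J₀) (fun J hJ' i hi => by
        have h3 := hJ J hJ' i hi
        rwa [show (1 : ℝ) + 6 * (1 / ((j : ℝ) + 1) / 3) = 1 + 2 * (1 / ((j : ℝ) + 1)) by ring])
    rwa [show (1 : ℝ) / ((j : ℝ) + 1) / 3 + 2 * (1 / ((j : ℝ) + 1)) / 3 = 1 / ((j : ℝ) + 1) by ring] at h2
  have h2 : ∀ᵐ t : ℝ, ∀ a : ℤ, t ∈ Set.Ioc (a : ℝ) ((a + 1 : ℤ) : ℝ) →
      ∀ j : ℕ, ∃ C : ℝ, 0 < C ∧ ∀ M N : ℕ, 1 ≤ N → ∀ ξ : ℝ,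
      ‖sg c M N t ξ‖ ≤ C * (N : ℝ) ^ (1 / 2 : ℝ) * ((M : ℝ) + N) ^ (1 / 6 + 1 / ((j : ℝ) + 1)) := by
    rw [ae_all_iff]
    intro a
    have h3 := h1 a
    unfold un at h3
    rwa [ae_restrict_iff' measurableSet_Ioc] at h3
  filter_upwards [h2] with t ht ε hε
  obtain ⟨j, hj⟩ := exists_nat_one_div_lt hε
  obtain ⟨C, hC0, hC⟩ := ht (⌈t⌉ - 1) (by
    constructor
    · push_cast
      have := Int.ceil_lt_add_one t
      linarith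
    · push_cast
      have := Int.le_ceil t
      linarith) j
  refine ⟨C, hC0, fun M N hN ξ => (hC M N hN ξ).trans ?_⟩
  have hX : (1 : ℝ) ≤ (M : ℝ) + N := by
    have h4 : (1 : ℝ) ≤ N := by exact_mod_cast hN
    have h5 : (0 : ℝ) ≤ M := Nat.cast_nonneg M
    linarith
  refine mul_le_mul_of_nonneg_left ?_ (by positivity)
  exact Real.rpow_le_rpow_of_exponent_le hX (by linarith)

/-- **The measure of the large values.** -/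
theorem meas_large {ε : ℝ} (hε : 0 < ε) : ∃ C : ℝ, 0 < C ∧ ∀ c : ℕ → ℂ, (∀ n, ‖c n‖ ≤ 1) →
    ∀ (M N : ℕ) (V : ℝ), 1 ≤ N → 0 < V →
      volume {t : ℝ | t ∈ Set.Ioc (0 : ℝ) 1 ∧ ∃ (N' : ℕ) (ξ : ℝ), N' ≤ N ∧ V < ‖sg c M N' t ξ‖} ≤
        ENNReal.ofReal (C * (N : ℝ) ^ 4 * ((M : ℝ) + N) ^ ε / V ^ 6) := by
  obtain ⟨C, hC, hp⟩ := card_pairs (ε := ε / 2) (by positivity)
  set κ : ℝ := ε / 12 with hκ
  have hκ0 : 0 < κ := by positivity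
  refine ⟨(2 + 1 / κ) ^ 6 * (4 * C), by positivity, fun c hc M N V hN hV => ?_⟩
  have hN1 : (1 : ℝ) ≤ N := by exact_mod_cast hN
  have hM0 : (0 : ℝ) ≤ M := Nat.cast_nonneg M
  have hX : (1 : ℝ) ≤ (M : ℝ) + N := by linarith
  set f : ℝ → ℝ := fun t => (2 + Real.log N) ^ 6 * ((3 * (N : ℝ) + 1) * Q c M N t) with hf
  have hlog : 0 ≤ Real.log N := Real.log_natCast_nonneg N
  have hfc : Continuous f := continuous_const.mul (continuous_const.mul (Q_cont c M N))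
  have hf0 : ∀ t, 0 ≤ f t := fun t =>
    mul_nonneg (by positivity) (mul_nonneg (by positivity) (Q_nonneg c M N t))
  have hint : ∫ t in ((0 : ℤ) : ℝ)..((0 + 1 : ℤ) : ℝ), f t ≤
      (2 + 1 / κ) ^ 6 * (4 * C) * (N : ℝ) ^ 4 * ((M : ℝ) + N) ^ ε := by
    rw [hf, intervalIntegral.integral_const_mul, intervalIntegral.integral_const_mul]
    have h1 := Q_int hc M N 0
    have h2 := (h1.trans (hp M N hN))
    have h3 : (2 + Real.log N) ^ 6 ≤ (2 + 1 / κ) ^ 6 * ((M : ℝ) + N) ^ (ε / 2) := by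
      have h4 : 2 + Real.log N ≤ (2 + 1 / κ) * ((M : ℝ) + N) ^ κ := by
        refine (log_le hκ0 hN1).trans ?_
        refine mul_le_mul_of_nonneg_left ?_ (by positivity)
        exact Real.rpow_le_rpow (by positivity) (by linarith) hκ0.le
      calc (2 + Real.log N) ^ 6 ≤ ((2 + 1 / κ) * ((M : ℝ) + N) ^ κ) ^ 6 :=
            pow_le_pow_left₀ (by positivity) h4 6
        _ = (2 + 1 / κ) ^ 6 * (((M : ℝ) + N) ^ κ) ^ 6 := by rw [mul_pow]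
        _ = _ := by
            rw [← Real.rpow_natCast (((M : ℝ) + N) ^ κ) 6, ← Real.rpow_mul (by positivity)]
            congr 2
            rw [hκ]
            push_cast
            ring
    have h5 : (3 * (N : ℝ) + 1) * ∫ t in ((0 : ℤ) : ℝ)..((0 + 1 : ℤ) : ℝ), Q c M N t ≤
        (4 * N) * (C * (N : ℝ) ^ 3 * ((M : ℝ) + N) ^ (ε / 2)) := by
      refine mul_le_mul (by linarith) h2 ?_ (by positivity)
      exact intervalIntegral.integral_nonneg (by norm_num) fun t _ => Q_nonneg c _ _ t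
    calc _ ≤ ((2 + 1 / κ) ^ 6 * ((M : ℝ) + N) ^ (ε / 2)) *
          ((4 * N) * (C * (N : ℝ) ^ 3 * ((M : ℝ) + N) ^ (ε / 2))) := by
          refine mul_le_mul h3 h5 ?_ (by positivity)
          refine mul_nonneg (by positivity) ?_
          exact intervalIntegral.integral_nonneg (by norm_num) fun t _ => Q_nonneg c _ _ t
      _ = (2 + 1 / κ) ^ 6 * (4 * C) * (N : ℝ) ^ 4 *
          (((M : ℝ) + N) ^ (ε / 2) * ((M : ℝ) + N) ^ (ε / 2)) := by ring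
      _ = _ := by
          rw [← Real.rpow_add (by positivity)]
          congr 2
          ring
  have hV6 : 0 < V ^ 6 := by positivity
  have h6 := markov 0 hfc hf0 hV6 hint
  refine le_trans ?_ h6
  unfold un
  rw [Measure.restrict_apply' measurableSet_Ioc]
  refine measure_mono ?_
  rintro t ⟨ht, N', ξ, hN', hV2⟩
  refine ⟨?_, ?_⟩
  · rw [sg_norm] at hV2
    have h7 := bs_max (c := c) M hN hN' t ξ
    exact (pow_le_pow_left₀ hV.le hV2.le 6).trans h7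
  · simpa using ht

end Pool.Agent.R219.CU
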