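import Mathlib
import Pool.Agent.R219.CU.Fin
import Pool.Agent.R461.MD.Cover

set_option autoImplicit false

/-!
# The Hausdorff dimension of the exceptional leading coefficients
-/

namespace Pool.Agent.R219.CU

open Finset MeasureTheory Filter Topology
open Pool.Agent.W928.MW (e e_add e_norm e_cont ev_pow ev_log)
open Pool.Agent.Helper112 (ee lsSep ls_general)
open Pool.Agent.R461.MD (cells ee_eq)

/-- pairs with the same value, counted by values -/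
theorem fib_sq {ι : Type} [DecidableEq ι] (Z : Finset ι) (φ : ι → ℕ) (R : Finset ℕ)
    (hR : ∀ z ∈ Z, φ z ∈ R) :
    ((Z ×ˢ Z).filter fun p => φ p.1 = φ p.2).card =
      ∑ v ∈ R, (Z.filter (fun z => φ z = v)).card ^ 2 := by
  rw [Finset.card_filter, Finset.sum_product]
  rw [← Finset.sum_fiberwise_of_maps_to (s := Z) (t := R) (g := φ) hR]
  refine Finset.sum_congr rfl fun v _ => ?_
  have : ∀ z ∈ Z.filter (fun z => φ z = v), ∑ w ∈ Z, (if φ z = φ w then 1 else 0) =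
      (Z.filter (fun z => φ z = v)).card := by
    intro z hz
    rw [Finset.mem_filter] at hz
    rw [hz.2, Finset.card_filter]
    refine Finset.sum_congr rfl fun w _ => ?_
    simp only [eq_comm]
  rw [Finset.sum_congr rfl this, Finset.sum_const, smul_eq_mul, sq]

/-- large sieve for exponential sums with integral frequencies -/
theorem sieve_gen {ι : Type} [DecidableEq ι] (Z : Finset ι) (φ : ι → ℕ) (b : ι → ℂ) (hb : ∀ z, ‖b z‖ ≤ 1)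
    {P K : ℕ} (hP : ∀ z ∈ Z, φ z ∈ Icc 1 P) (hK : 1 ≤ K) (T : Finset ℝ)
    (hsep : ∀ r ∈ T, ∀ s ∈ T, r ≠ s → lsSep K (s - r)) :
    ∑ t ∈ T, ‖∑ z ∈ Z, b z * e (t * (φ z : ℝ))‖ ^ 2 ≤
      6 * ((P : ℝ) + K) * (((Z ×ˢ Z).filter fun p => φ p.1 = φ p.2).card : ℝ) := by
  classical
  set α : ℕ → ℂ := fun n => ∑ z ∈ Z.filter (fun z => φ z = n), b z with hα
  have h1 : ∀ t : ℝ, ∑ z ∈ Z, b z * e (t * (φ z : ℝ)) = ∑ n ∈ Icc 1 P, α n * ee (n * t) := by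
    intro t
    rw [← Finset.sum_fiberwise_of_maps_to (s := Z) (t := Icc 1 P) (g := φ) hP]
    refine Finset.sum_congr rfl fun v _ => ?_
    rw [hα]
    simp only
    rw [Finset.sum_mul]
    refine Finset.sum_congr rfl fun z hz => ?_
    rw [Finset.mem_filter] at hz
    rw [hz.2, ee_eq, mul_comm t]
  have h2 := ls_general T (fun t => t) K P hK hsep α
  have h3 : ∑ t ∈ T, ‖∑ z ∈ Z, b z * e (t * (φ z : ℝ))‖ ^ 2 =
      ∑ r ∈ T, ‖∑ n ∈ Icc 1 P, α n * ee (n * (fun t => t) r)‖ ^ 2 :=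
    Finset.sum_congr rfl fun t _ => by rw [h1]
  rw [h3]
  refine h2.trans ?_
  refine mul_le_mul_of_nonneg_left ?_ (by positivity)
  rw [fib_sq Z φ (Icc 1 P) hP]
  push_cast
  refine Finset.sum_le_sum fun n _ => ?_
  refine pow_le_pow_left₀ (norm_nonneg _) ?_ 2
  rw [hα]
  refine (norm_sum_le _ _).trans ?_
  calc _ ≤ ∑ _z ∈ Z.filter (fun z => φ z = n), (1 : ℝ) := Finset.sum_le_sum fun z _ => hb z
    _ = _ := by rw [Finset.sum_const, nsmul_eq_mul, mul_one]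

/-- the sum of the cubes, as a natural number -/
def cubN (u : ℕ) (z : ℕ × ℕ × ℕ) : ℕ := (u + z.1) ^ 3 + (u + z.2.1) ^ 3 + (u + z.2.2) ^ 3

theorem cubN_cast (u : ℕ) (z : ℕ × ℕ × ℕ) : ((cubN u z : ℕ) : ℤ) = cub u z := by
  unfold cubN cub
  push_cast
  ring

theorem cubN_mem {u L : ℕ} {z : ℕ × ℕ × ℕ} (hz : z ∈ tri L) : cubN u z ∈ Icc 1 (3 * (u + L) ^ 3) := by
  simp only [tri, mem_product, mem_Icc] at hz
  rw [mem_Icc]
  unfold cubN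
  have h1 : (u + z.1) ^ 3 ≤ (u + L) ^ 3 := Nat.pow_le_pow_left (by omega) 3
  have h2 : (u + z.2.1) ^ 3 ≤ (u + L) ^ 3 := Nat.pow_le_pow_left (by omega) 3
  have h3 : (u + z.2.2) ^ 3 ≤ (u + L) ^ 3 := Nat.pow_le_pow_left (by omega) 3
  have h4 : 0 < (u + z.1) ^ 3 := by
    have : 0 < u + z.1 := by omega
    positivity
  constructor <;> omega

theorem sieveQ {c : ℕ → ℂ} (hc : ∀ n, ‖c n‖ ≤ 1) (u L : ℕ) {K : ℕ} (hK : 1 ≤ K) (T : Finset ℝ)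
    (hsep : ∀ r ∈ T, ∀ s ∈ T, r ≠ s → lsSep K (s - r)) :
    ∑ t ∈ T, Q c u L t ≤ 6 * (3 * ((u : ℝ) + L) ^ 3 + K) * ((pairs u L).card : ℝ) := by
  unfold Q
  rw [Finset.sum_comm]
  have h1 : ∀ m ∈ range (3 * L + 1), ∑ t ∈ T, ‖G c u L m t‖ ^ 2 ≤
      6 * (3 * ((u : ℝ) + L) ^ 3 + K) *
        (((fs L m ×ˢ fs L m).filter fun p => cubN u p.1 = cubN u p.2).card : ℝ) := by
    intro m _
    have h2 := sieve_gen (fs L m) (cubN u) (cf c u) (cf_le hc u) (P := 3 * (u + L) ^ 3) (K := K)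
      (fun z hz => cubN_mem (Finset.mem_filter.1 hz).1) hK T hsep
    have h3 : ∀ t : ℝ, ∑ z ∈ fs L m, cf c u z * e (t * ((cubN u z : ℕ) : ℝ)) = G c u L m t := by
      intro t
      unfold G
      refine Finset.sum_congr rfl fun z _ => ?_
      rw [← cubN_cast]
      push_cast
      rfl
    simp only [h3] at h2
    refine h2.trans (le_of_eq ?_)
    push_cast
    ring
  refine (Finset.sum_le_sum h1).trans ?_
  rw [← Finset.mul_sum]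
  refine mul_le_mul_of_nonneg_left ?_ (by positivity)
  have h2 : (pairs u L).card = ∑ m ∈ range (3 * L + 1),
      ((pairs u L).filter fun p => ssum p.1 = m).card := by
    refine Finset.card_eq_sum_card_fiberwise fun p hp => ?_
    rw [Finset.mem_coe] at hp ⊢
    simp only [pairs, tri, mem_filter, mem_product, mem_Icc] at hp
    simp only [ssum, Finset.mem_range]
    omega
  rw [h2]
  push_cast
  refine Finset.sum_le_sum fun m _ => ?_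
  have h3 : (fs L m ×ˢ fs L m).filter (fun p => cubN u p.1 = cubN u p.2) ⊆
      (pairs u L).filter fun p => ssum p.1 = m := by
    intro p hp
    simp only [fs, pairs, mem_filter, mem_product] at hp ⊢
    refine ⟨⟨⟨hp.1.1.1, hp.1.2.1⟩, ?_, ?_⟩, hp.1.1.2⟩
    · rw [hp.1.1.2, hp.1.2.2]
    · rw [← cubN_cast, ← cubN_cast, hp.2]
  exact_mod_cast Finset.card_le_card h3

theorem sieveF {δ : ℝ} (hδ : 0 < δ) : ∃ C : ℝ, 0 < C ∧ ∀ c : ℕ → ℂ, (∀ n, ‖c n‖ ≤ 1) →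
    ∀ J i : ℕ, i ≤ J → ∀ T : Finset ℝ, (∀ r ∈ T, ∀ s ∈ T, r ≠ s → lsSep (2 ^ (J * 3)) (s - r)) →
      ∑ t ∈ T, F c J i t ≤ C * (((2 : ℝ) ^ i) ^ 3 * ((2 : ℝ) ^ J) ^ (4 + δ)) := by
  obtain ⟨C, hC, hp⟩ := card_pairs hδ
  refine ⟨56 * 492 * C * (3 : ℝ) ^ δ, by positivity, fun c hc J i hi T hsep => ?_⟩
  unfold F
  rw [Finset.sum_comm]
  have hi0 : (1 : ℝ) ≤ (2 : ℝ) ^ i := one_le_pow₀ (by norm_num)
  have hJ0 : (1 : ℝ) ≤ (2 : ℝ) ^ J := one_le_pow₀ (by norm_num)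
  have h1 : ∀ j ∈ range (2 ^ (J - i)), ∑ t ∈ T,
      (3 * ((2 * 2 ^ i : ℕ) : ℝ) + 1) * Q c (j * 2 ^ i) (2 * 2 ^ i) t ≤
      (7 * (2 : ℝ) ^ i) * ((492 * ((2 : ℝ) ^ J) ^ 3) *
        (C * (2 * (2 : ℝ) ^ i) ^ 3 * (3 * (2 : ℝ) ^ J) ^ δ)) := by
    intro j hj
    rw [Finset.mem_range] at hj
    rw [← Finset.mul_sum]
    have h2 := sieveQ hc (j * 2 ^ i) (2 * 2 ^ i) (K := 2 ^ (J * 3)) Nat.one_le_two_pow T hsep
    have h3 := hp (j * 2 ^ i) (2 * 2 ^ i) (by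
      have : 1 ≤ 2 ^ i := Nat.one_le_two_pow
      omega)
    have h4 : ((j * 2 ^ i : ℕ) : ℝ) + ((2 * 2 ^ i : ℕ) : ℝ) ≤ 3 * (2 : ℝ) ^ J := by
      have h5 : j * 2 ^ i + 2 * 2 ^ i ≤ 3 * 2 ^ J := by
        have h6 : j * 2 ^ i ≤ 2 ^ (J - i) * 2 ^ i := Nat.mul_le_mul_right _ hj.le
        rw [← pow_add, Nat.sub_add_cancel hi] at h6
        have h7 : 2 ^ i ≤ 2 ^ J := Nat.pow_le_pow_right (by norm_num) hi
        omega
      exact_mod_cast h5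
    have h5 : (((j * 2 ^ i : ℕ) : ℝ) + ((2 * 2 ^ i : ℕ) : ℝ)) ^ δ ≤ (3 * (2 : ℝ) ^ J) ^ δ :=
      Real.rpow_le_rpow (by positivity) h4 hδ.le
    have h6 : (3 * ((2 * 2 ^ i : ℕ) : ℝ) + 1) ≤ 7 * (2 : ℝ) ^ i := by
      push_cast
      linarith
    have h7 : (((2 * 2 ^ i : ℕ) : ℝ)) = 2 * (2 : ℝ) ^ i := by push_cast; ring
    have h8 : ((pairs (j * 2 ^ i) (2 * 2 ^ i)).card : ℝ) ≤
        C * (2 * (2 : ℝ) ^ i) ^ 3 * (3 * (2 : ℝ) ^ J) ^ δ := by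
      refine h3.trans ?_
      rw [← h7]
      exact mul_le_mul_of_nonneg_left h5 (by positivity)
    have h9 : 6 * (3 * (((j * 2 ^ i : ℕ) : ℝ) + ((2 * 2 ^ i : ℕ) : ℝ)) ^ 3 + ((2 ^ (J * 3) : ℕ) : ℝ)) ≤
        492 * ((2 : ℝ) ^ J) ^ 3 := by
      have h10 : (((j * 2 ^ i : ℕ) : ℝ) + ((2 * 2 ^ i : ℕ) : ℝ)) ^ 3 ≤ (3 * (2 : ℝ) ^ J) ^ 3 :=
        pow_le_pow_left₀ (by positivity) h4 3
      have h11 : (((2 ^ (J * 3) : ℕ) : ℝ)) = ((2 : ℝ) ^ J) ^ 3 := by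
        push_cast
        rw [pow_mul]
      rw [h11]
      have h12 : (3 * (2 : ℝ) ^ J) ^ 3 = 27 * ((2 : ℝ) ^ J) ^ 3 := by ring
      rw [h12] at h10
      linarith
    have h10 : ∑ t ∈ T, Q c (j * 2 ^ i) (2 * 2 ^ i) t ≤ (492 * ((2 : ℝ) ^ J) ^ 3) *
        (C * (2 * (2 : ℝ) ^ i) ^ 3 * (3 * (2 : ℝ) ^ J) ^ δ) :=
      h2.trans (mul_le_mul h9 h8 (Nat.cast_nonneg _) (by positivity))
    exact mul_le_mul h6 h10 (Finset.sum_nonneg fun t _ => Q_nonneg c _ _ t) (by positivity)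
  refine (Finset.sum_le_sum h1).trans (le_of_eq ?_)
  rw [Finset.sum_const, Finset.card_range, nsmul_eq_mul]
  have h2 : (((2 ^ (J - i) : ℕ) : ℝ)) * (2 : ℝ) ^ i = (2 : ℝ) ^ J := by
    push_cast
    rw [← pow_add, Nat.sub_add_cancel hi]
  have h3 : ((2 : ℝ) ^ J) ^ (4 + δ) = ((2 : ℝ) ^ J) ^ 4 * ((2 : ℝ) ^ J) ^ δ := by
    rw [Real.rpow_add (by positivity), ← Real.rpow_natCast ((2 : ℝ) ^ J) 4]
    norm_num
  rw [h3, Real.mul_rpow (by norm_num) (by positivity)]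
  calc _ = (((2 ^ (J - i) : ℕ) : ℝ) * (2 : ℝ) ^ i) * ((2 : ℝ) ^ J) ^ 3 *
        (56 * 492 * C * (3 : ℝ) ^ δ * ((2 : ℝ) ^ i) ^ 3 * ((2 : ℝ) ^ J) ^ δ) := by ring
    _ = _ := by rw [h2]; ring

/-- bad leading coefficients at the scale `2^J` -/
def Bd (c : ℕ → ℂ) (θ : ℝ) (a : ℤ) (J : ℕ) : Set ℝ :=
  {t : ℝ | t ∈ Set.Icc (a : ℝ) ((a : ℝ) + 1) ∧ ∃ i ≤ J,
    ((2 : ℝ) ^ i) ^ 3 * ((2 : ℝ) ^ J) ^ (1 + 6 * θ) < F c J i t}

/-- **The covering.** -/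
theorem cover {c : ℕ → ℂ} (hc : ∀ n, ‖c n‖ ≤ 1) {θ κ : ℝ} (hκ : 0 < κ)
    (hA : 0 < 3 - 6 * θ + κ) (a : ℤ) :
    ∃ i0 : ℕ, ∀ J : ℕ, i0 ≤ J → ∃ S : Finset ℝ,
      (S.card : ℝ) ≤ ((2 : ℝ) ^ J) ^ (3 - 6 * θ + κ) ∧
      Bd c θ a J ⊆ ⋃ x ∈ S, Set.Icc x (x + ((2 : ℝ) ^ J) ^ (-(3 : ℝ))) := by
  classical
  obtain ⟨C, hC, hs⟩ := sieveF (δ := κ / 4) (by positivity)
  set A : ℝ := 3 - 6 * θ + κ with hAdef
  obtain ⟨i1, h1⟩ := ev_log (κ / 4) (by positivity) 1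
  obtain ⟨i2, h2⟩ := ev_pow (κ / 4) (by positivity) (4 * C)
  obtain ⟨i3, h3⟩ := ev_pow A hA 2
  refine ⟨i1 + i2 + i3 + 1, fun J hJ => ?_⟩
  have g1 := h1 J (by omega)
  have g2 := h2 J (by omega)
  have g3 := h3 J (by omega)
  set X : ℝ := (2 : ℝ) ^ J with hX
  have hX1 : (1 : ℝ) ≤ X := one_le_pow₀ (by norm_num)
  have hX0 : (0 : ℝ) < X := by positivity
  have hJX : (J : ℝ) + 1 ≤ X ^ (κ / 4) := by
    have h4 : Real.log X = J * Real.log 2 := by rw [hX, Real.log_pow]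
    have h5 : (1 / 2 : ℝ) ≤ Real.log 2 := by
      have := Real.log_two_gt_d9
      linarith
    have h6 : (J : ℝ) * (1 / 2) ≤ Real.log X := by
      rw [h4]
      exact mul_le_mul_of_nonneg_left h5 (Nat.cast_nonneg _)
    linarith
  have hK0 : 0 < 2 ^ (J * 3) := by positivity
  have hKX : (((2 ^ (J * 3) : ℕ) : ℕ) : ℝ) = X ^ 3 := by
    rw [hX]
    push_cast
    rw [pow_mul]
  have hK2 : 2 ∣ 2 ^ (J * 3) := by
    refine dvd_pow_self 2 ?_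
    omega
  have hR : ∀ T : Finset ℝ, (∀ t ∈ T, t ∈ Bd c θ a J) →
      (∀ r ∈ T, ∀ s ∈ T, r ≠ s → lsSep (2 ^ (J * 3)) (s - r)) →
      (T.card : ℝ) ≤ X ^ A / 4 := by
    intro T hTE hsep
    set Ti : ℕ → Finset ℝ := fun i => T.filter fun t => ((2 : ℝ) ^ i) ^ 3 * X ^ (1 + 6 * θ) < F c J i t
      with hTi
    have h4 : T ⊆ (range (J + 1)).biUnion Ti := by
      intro t ht
      obtain ⟨_, i, hi, hlt⟩ := hTE t ht
      rw [Finset.mem_biUnion]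
      exact ⟨i, Finset.mem_range.2 (by omega), Finset.mem_filter.2 ⟨ht, hlt⟩⟩
    have h5 : ∀ i ∈ range (J + 1), ((Ti i).card : ℝ) ≤ C * X ^ (3 - 6 * θ + κ / 4) := by
      intro i hi
      rw [Finset.mem_range] at hi
      have h6 := hs c hc J i (by omega) (Ti i) (fun r hr s hs' hne =>
        hsep r (Finset.mem_filter.1 hr).1 s (Finset.mem_filter.1 hs').1 hne)
      have h7 : ((Ti i).card : ℝ) * (((2 : ℝ) ^ i) ^ 3 * X ^ (1 + 6 * θ)) ≤ ∑ t ∈ Ti i, F c J i t := by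
        calc _ = ∑ _t ∈ Ti i, ((2 : ℝ) ^ i) ^ 3 * X ^ (1 + 6 * θ) := by
              rw [Finset.sum_const, nsmul_eq_mul]
          _ ≤ _ := Finset.sum_le_sum fun t ht => (Finset.mem_filter.1 ht).2.le
      have h8 : X ^ (4 + κ / 4) = X ^ (3 - 6 * θ + κ / 4) * X ^ (1 + 6 * θ) := by
        rw [← Real.rpow_add hX0]
        congr 1
        ring
      have h9 : ((Ti i).card : ℝ) * (((2 : ℝ) ^ i) ^ 3 * X ^ (1 + 6 * θ)) ≤
          (C * X ^ (3 - 6 * θ + κ / 4)) * (((2 : ℝ) ^ i) ^ 3 * X ^ (1 + 6 * θ)) := by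
        refine (h7.trans h6).trans (le_of_eq ?_)
        rw [h8]
        ring
      exact le_of_mul_le_mul_right h9 (by positivity)
    have h6 : (T.card : ℝ) ≤ ∑ i ∈ range (J + 1), ((Ti i).card : ℝ) := by
      exact_mod_cast (Finset.card_le_card h4).trans Finset.card_biUnion_le
    have h7 : (T.card : ℝ) ≤ ((J : ℝ) + 1) * (C * X ^ (3 - 6 * θ + κ / 4)) := by
      refine h6.trans ((Finset.sum_le_sum h5).trans (le_of_eq ?_))
      rw [Finset.sum_const, Finset.card_range, nsmul_eq_mul]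
      push_cast
      ring
    refine h7.trans ?_
    have h8 : ((J : ℝ) + 1) * (C * X ^ (3 - 6 * θ + κ / 4)) ≤
        X ^ (κ / 4) * ((X ^ (κ / 4) / 4) * X ^ (3 - 6 * θ + κ / 4)) := by
      refine mul_le_mul hJX ?_ (by positivity) (by positivity)
      refine mul_le_mul_of_nonneg_right ?_ (by positivity)
      linarith
    refine h8.trans ?_
    have h9 : X ^ (κ / 4) * ((X ^ (κ / 4) / 4) * X ^ (3 - 6 * θ + κ / 4)) =
        X ^ (3 - 6 * θ + 3 * κ / 4) / 4 := by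
      have h10 : X ^ (3 - 6 * θ + 3 * κ / 4) = X ^ (κ / 4) * (X ^ (κ / 4) * X ^ (3 - 6 * θ + κ / 4)) := by
        rw [← Real.rpow_add hX0, ← Real.rpow_add hX0]
        congr 1
        ring
      rw [h10]
      ring
    rw [h9]
    refine div_le_div_of_nonneg_right ?_ (by norm_num)
    exact Real.rpow_le_rpow_of_exponent_le hX1 (by rw [hAdef]; linarith)
  obtain ⟨S, hS1, hS2⟩ := cells hK2 hK0 (Bd c θ a J) a (fun t ht => ht.1) hR
  refine ⟨S, ?_, ?_⟩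
  · refine hS1.trans ?_
    linarith
  · have e1 : X ^ (-(3 : ℝ)) = 1 / (((2 ^ (J * 3) : ℕ) : ℕ) : ℝ) := by
      rw [hKX, Real.rpow_neg hX0.le, one_div]
      congr 1
      exact_mod_cast Real.rpow_natCast X 3
    rw [e1]
    exact hS2

/-- the bound holds at `t`, on all intervals -/
def Ok (c : ℕ → ℂ) (θ t : ℝ) : Prop :=
  ∃ C : ℝ, ∀ M N : ℕ, 1 ≤ N → ∀ ξ : ℝ,
    ‖sg c M N t ξ‖ ≤ C * (N : ℝ) ^ (1 / 2 : ℝ) * ((M : ℝ) + N) ^ (1 / 6 + θ)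

theorem dim_one {c : ℕ → ℂ} (hc : ∀ n, ‖c n‖ ≤ 1) {θ κ : ℝ} (hκ : 0 < κ) (hκθ : κ ≤ θ) (hθ : θ < 1 / 2) :
    dimH {t : ℝ | ¬ Ok c θ t} ≤ ENNReal.ofReal (1 - 2 * θ + 3 * κ) := by
  have hsub : {t : ℝ | ¬ Ok c θ t} ⊆
      ⋃ a : ℤ, {t : ℝ | ∀ i1 : ℕ, ∃ J : ℕ, i1 ≤ J ∧ t ∈ Bd c (θ - κ) a J} := by
    intro t ht
    rw [Set.mem_iUnion]
    refine ⟨⌊t⌋, ?_⟩
    by_contra hcon
    rw [Set.mem_setOf_eq] at hcon
    push Not at hcon
    obtain ⟨J₀, h1⟩ := hcon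
    refine ht ?_
    obtain ⟨C, _, h2⟩ := det (θ := θ - κ) (κ := κ) (by linarith) hκ (c := c) (t := t) (J₀ := J₀)
      (fun J hJ i hi => by
        by_contra hlt
        push Not at hlt
        exact h1 J hJ ⟨⟨Int.floor_le t, (Int.lt_floor_add_one t).le⟩, i, hi, hlt⟩)
    refine ⟨C, fun M N hN ξ => ?_⟩
    have h3 := h2 M N hN ξ
    rwa [show θ - κ + κ = θ by ring] at h3
  refine (dimH_mono hsub).trans ?_
  rw [dimH_iUnion]
  refine iSup_le fun a => ?_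
  refine Pool.Agent.TH181.MW.S_DIMG_t (3 - 6 * (θ - κ) + κ) 3 (1 - 2 * θ + 3 * κ) (Bd c (θ - κ) a)
    (by norm_num) (by linarith) (by linarith) ?_
  exact cover hc hκ (by linarith) a

/-- **The dimension of the exceptional set.** -/
theorem dim_all {c : ℕ → ℂ} (hc : ∀ n, ‖c n‖ ≤ 1) {θ : ℝ} (hθ0 : 0 < θ) (hθ : θ < 1 / 2) :
    dimH {t : ℝ | ¬ Ok c θ t} ≤ ENNReal.ofReal (1 - 2 * θ) := by
  have h1 : ∀ n : ℕ, dimH {t : ℝ | ¬ Ok c θ t} ≤ ENNReal.ofReal (1 - 2 * θ + 3 * (θ / ((n : ℝ) + 1))) := by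
    intro n
    have hn : (0 : ℝ) ≤ n := Nat.cast_nonneg n
    exact dim_one hc (by positivity) (div_le_self hθ0.le (by linarith)) hθ
  have h2 : Tendsto (fun n : ℕ => ENNReal.ofReal (1 - 2 * θ + 3 * (θ / ((n : ℝ) + 1)))) atTop
      (𝓝 (ENNReal.ofReal (1 - 2 * θ + 3 * 0))) := by
    refine (ENNReal.continuous_ofReal.tendsto _).comp ?_
    refine Tendsto.const_add _ (Tendsto.const_mul _ ?_)
    have h3 := (tendsto_one_div_add_atTop_nhds_zero_nat (𝕜 := ℝ)).const_mul θ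
    rw [mul_zero] at h3
    refine h3.congr fun n => ?_
    ring
  rw [mul_zero, add_zero] at h2
  exact ge_of_tendsto' h2 h1

end Pool.Agent.R219.CU
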